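import Mathlib

/-!
# Incremental branching programs for GEN

An instance of GEN is a binary operation `T` on `Fin n` (a table of `n²` entries); the question is
whether the last element is generated by the first one (the element `0`).
-/

namespace Pool.Agent.J4H24.GN

/-- The elements generated by the element `0` under the operation `T`. -/
inductive Gen {n : ℕ} [NeZero n] (T : Fin n → Fin n → Fin n) : Fin n → Prop
  | one : Gen T 0
  | mul {a b : Fin n} : Gen T a → Gen T b → Gen T (T a b)

/-- A (nondeterministic) branching program with state set `Q`: a start state, final states and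
edges; an edge is free (`none`) or carries a test `some (a, b, c)` (`T a b = c`). Any number of
edges may leave a state, and cycles are allowed. -/
structure Prog (n : ℕ) (Q : Type) where
  start : Q
  fin : Q → Prop
  edge : Q → Option (Fin n × Fin n × Fin n) → Q → Prop

/-- `L` lists the edges (label, next state) of a path from the state `q` to a final state. -/
def Path {n : ℕ} {Q : Type} (P : Prog n Q) : Q → List (Option (Fin n × Fin n × Fin n) × Q) → Prop
  | q, [] => P.fin q
  | q, (e, q') :: L => P.edge q e q' ∧ Path P q' L

/-- The complete computations of `P` on the input `T`: the paths from the start state to a final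
state all of whose tests are true. -/
def comps {n : ℕ} {Q : Type} (P : Prog n Q) (T : Fin n → Fin n → Fin n) :
    Set (List (Option (Fin n × Fin n × Fin n) × Q)) :=
  {L | Path P P.start L ∧ ∀ a b c q, (some (a, b, c), q) ∈ L → T a b = c}

/-- `P` is (semantically) incremental: if a complete computation tests `T a b = c`, then each of
`a` and `b` is `0` or the result of an earlier test of this computation. -/
def Incremental {n : ℕ} [NeZero n] {Q : Type} (P : Prog n Q) : Prop :=
  ∀ T, ∀ L ∈ comps P T, ∀ L₁ a b c q L₂, L = L₁ ++ (some (a, b, c), q) :: L₂ →
    (a = 0 ∨ ∃ x y q', (some (x, y, a), q') ∈ L₁) ∧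
      (b = 0 ∨ ∃ x y q', (some (x, y, b), q') ∈ L₁)

/-- `P` is generating: complete computations on the input `T` test `T a b = c` only for elements
`a` and `b` which are generated by `0`. -/
def Generating {n : ℕ} [NeZero n] {Q : Type} (P : Prog n Q) : Prop :=
  ∀ T, ∀ L ∈ comps P T, ∀ a b c q, (some (a, b, c), q) ∈ L → Gen T a ∧ Gen T b

end Pool.Agent.J4H24.GN
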