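import Pool.Agent.J4H24.GN.Tra
import Pool.Agent.J4H24.TH.Avg
import Pool.Agent.J4H24.TH.Asy

/-!
# The bounds
-/

namespace Pool.Agent.J4H24.GN

open Pool.Agent.J4H24.TH (Var val)
open Real

/-- The theorem on pyramids. -/
theorem th_main (h : ℕ) (hh : 10 ^ 12 ≤ h) (k : ℕ) [NeZero k] (hk : h ^ 3 ≤ k)
    (A : Finset (Fin k)) (Q : Type) [Fintype Q] (P : TH.Prog k Q) (hW : TH.Within h P)
    (hT : TH.Thrifty P) (hQ : (Fintype.card Q : ℝ) <
      (2 : ℝ) ^ ((1 / 40 : ℝ) * √((h : ℝ) ^ (1 / 3 : ℝ) * Real.log k)))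
    (Φ : Set (List (Option (Var k × Fin k) × Q)) → Prop) :
    (Nat.card {g : Fin (h + 1) × Fin (h + 1) → Fin k → Fin k → Fin k //
        Φ (TH.comps P (TH.inp g)) ↔ val (TH.inp g) h 0 ∈ A} : ℝ) ≤
      (((max A.card (k - A.card) : ℕ) : ℝ) / k + (k : ℝ) ^ (-((h : ℝ) ^ (1 / 3 : ℝ) / 40))) *
        Nat.card (Fin (h + 1) × Fin (h + 1) → Fin k → Fin k → Fin k) := by
  classical
  have hk2 : 2 ≤ k := by
    have h1 : 2 ≤ h := le_trans (by norm_num) hh
    have h2 : h ≤ h ^ 3 := Nat.le_self_pow (by norm_num) h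
    omega
  have key := TH.asym (G := (TH.Good P h A Φ).card) (T := Fintype.card (TH.TB h k))
    (μ := max A.card (k - A.card)) hh hk hQ
    (fun _ _ hp hM hS => TH.avg_fin hp hM hk2 hW hT hS A Φ)
  have e : Nat.card {g : Fin (h + 1) × Fin (h + 1) → Fin k → Fin k → Fin k //
      Φ (TH.comps P (TH.inp g)) ↔ val (TH.inp g) h 0 ∈ A} = (TH.Good P h A Φ).card := by
    unfold TH.Good
    rw [Nat.card_eq_fintype_card, Fintype.card_subtype]
  rw [e, Nat.card_eq_fintype_card]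
  exact key

lemma card_El (h k : ℕ) : Fintype.card (El h k) ≤ (h + 2) + ((h + 1) * ((h + 1) * k) + 1) := by
  let φ : El h k → Fin (h + 2) ⊕ ((Fin (h + 1) × Fin (h + 1) × Fin k) ⊕ Unit) := fun u =>
    match u with
    | El.ch i => Sum.inl i
    | El.nd i j a => Sum.inr (Sum.inl (i, j, a))
    | El.top => Sum.inr (Sum.inr ())
  have hφ : Function.Injective φ := by
    intro u v e
    cases u <;> cases v <;> simp_all [φ]
  have := Fintype.card_le_of_injective φ hφ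
  simpa [Fintype.card_sum, Fintype.card_prod] using this

lemma exists_enc {h k n : ℕ} (hn : (h + 2) + ((h + 1) * ((h + 1) * k) + 1) ≤ n + 1) :
    ∃ E : Enc h k (n + 1), E.enc El.top = Fin.last n := by
  classical
  have hc : Fintype.card (El h k) ≤ Fintype.card (Fin (n + 1)) := by
    rw [Fintype.card_fin]
    exact (card_El h k).trans hn
  obtain ⟨e⟩ := Function.Embedding.nonempty_of_card_le hc
  let e1 : El h k → Fin (n + 1) := fun u => Equiv.swap (e (El.ch 0)) 0 (e u)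
  have i1 : Function.Injective e1 := (Equiv.injective _).comp e.injective
  have z1 : e1 (El.ch 0) = 0 := Equiv.swap_apply_left _ _
  let e2 : El h k → Fin (n + 1) := fun u => Equiv.swap (e1 El.top) (Fin.last n) (e1 u)
  have i2 : Function.Injective e2 := (Equiv.injective _).comp i1
  have t2 : e2 El.top = Fin.last n := Equiv.swap_apply_left _ _
  have z2 : e2 (El.ch 0) = 0 := by
    show Equiv.swap (e1 El.top) (Fin.last n) (e1 (El.ch 0)) = 0
    rw [z1]
    apply Equiv.swap_apply_of_ne_of_ne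
    · intro h0
      have := i1 (z1.trans h0)
      cases this
    · intro h0
      have := congrArg Fin.val h0
      simp at this
      omega
  refine ⟨⟨e2, fun x => if hx : ∃ u, e2 u = x then some hx.choose else none, ?_, ?_, z2⟩, t2⟩
  · intro u
    have hx : ∃ v, e2 v = e2 u := ⟨u, rfl⟩
    rw [dif_pos hx]
    exact congrArg some (i2 hx.choose_spec)
  · intro x u hu
    by_cases hx : ∃ u, e2 u = x
    · rw [dif_pos hx] at hu
      rw [← Option.some.inj hu]
      exact hx.choose_spec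
    · rw [dif_neg hx] at hu
      simp at hu

/-- **Small generating programs do not solve GEN.** -/
theorem gen_main (n : ℕ) (hn : 10 ^ 61 ≤ n) :
    ∃ (ι : Type) (_ : Fintype ι) (_ : Nonempty ι) (F : ι → Fin (n + 1) → Fin (n + 1) → Fin (n + 1)),
      ∀ (Q : Type) [Fintype Q] (P : Prog (n + 1) Q), Generating P →
        (Fintype.card Q : ℝ) < (2 : ℝ) ^ ((n : ℝ) ^ (1 / 30 : ℝ) / 5) →
        ∀ Φ : Set (List (Option (Fin (n + 1) × Fin (n + 1) × Fin (n + 1)) × Q)) → Prop,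
          (Nat.card {t : ι // Φ (comps P (F t)) ↔ Gen (F t) (Fin.last n)} : ℝ) ≤
            (1 / 2 + Real.exp (-(n : ℝ) ^ (1 / 15 : ℝ))) * Nat.card ι := by
  classical
  set x : ℝ := ((n : ℝ) / 3) ^ (1 / 5 : ℝ) with hx
  set h : ℕ := ⌊x⌋₊ with hh
  have hn0 : (10 : ℝ) ^ 61 ≤ n := by exact_mod_cast hn
  have hnpos : (0 : ℝ) < n := lt_of_lt_of_le (by positivity) hn0
  have hx0 : 0 ≤ x := by positivity
  have hx5 : x ^ 5 = (n : ℝ) / 3 := by
    rw [hx, ← Real.rpow_natCast, ← Real.rpow_mul (by positivity)]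
    norm_num
  have hhx : (h : ℝ) ≤ x := Nat.floor_le hx0
  have hxh : x < h + 1 := Nat.lt_floor_add_one x
  have hh12 : 10 ^ 12 ≤ h := by
    apply Nat.le_floor
    push_cast
    by_contra hc
    push Not at hc
    have := pow_lt_pow_left₀ hc hx0 (n := 5) (by norm_num)
    rw [hx5] at this
    have h1 : ((10 : ℝ) ^ 12) ^ 5 * 3 ≤ n := le_trans (by norm_num) hn0
    linarith
  have hhR : (10 : ℝ) ^ 12 ≤ h := by exact_mod_cast hh12
  have hhpos : (0 : ℝ) < h := lt_of_lt_of_le (by positivity) hhR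
  have h5 : (3 : ℝ) * h ^ 5 ≤ n := by
    have := pow_le_pow_left₀ hhpos.le hhx 5
    rw [hx5] at this
    linarith
  have h5' : (n : ℝ) ≤ 4 * h ^ 5 := by
    have h1 := pow_le_pow_left₀ hx0 hxh.le 5
    rw [hx5] at h1
    have h2 : ((h : ℝ) + 1) ≤ h * (1 + 1 / 10 ^ 12) := by
      have : (1 : ℝ) ≤ h * (1 / 10 ^ 12) := by
        rw [mul_one_div, le_div_iff₀ (by positivity)]
        linarith
      linarith
    have h3 := pow_le_pow_left₀ (by positivity) h2 5
    rw [mul_pow] at h3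
    have h4 : ((1 : ℝ) + 1 / 10 ^ 12) ^ 5 ≤ 4 / 3 := by norm_num
    have h6 : (0 : ℝ) ≤ (h : ℝ) ^ 5 := by positivity
    nlinarith
  set k : ℕ := 2 * h ^ 3 with hk
  have hkpos : 0 < k := by
    have : 0 < h := by omega
    positivity
  have : NeZero k := ⟨by omega⟩
  have hcard : (h + 2) + ((h + 1) * ((h + 1) * k) + 1) ≤ n + 1 := by
    have h1 : ((h : ℝ) + 2) + ((h + 1) * ((h + 1) * (2 * h ^ 3)) + 1) ≤ 3 * h ^ 5 := by
      have e : ((h : ℝ) + 2) + ((h + 1) * ((h + 1) * (2 * h ^ 3)) + 1) =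
          2 * h ^ 5 + (4 * h ^ 4 + 2 * h ^ 3 + h + 3) := by ring
      have h1 : (1 : ℝ) ≤ h := by linarith
      have h2 : (h : ℝ) ^ 3 ≤ h ^ 4 := pow_le_pow_right₀ h1 (by norm_num)
      have h3 : (h : ℝ) ≤ h ^ 4 := by
        calc (h : ℝ) = h ^ 1 := (pow_one _).symm
          _ ≤ h ^ 4 := pow_le_pow_right₀ h1 (by norm_num)
      have h4 : (1 : ℝ) ≤ h ^ 4 := one_le_pow₀ h1
      have h6 : (10 : ℝ) * h ^ 4 ≤ h ^ 5 := by
        have : (h : ℝ) ^ 5 = h * h ^ 4 := by ring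
        rw [this]
        apply mul_le_mul_of_nonneg_right (by linarith) (by positivity)
      rw [e]
      linarith
    have h2 : ((h : ℝ) + 2) + ((h + 1) * ((h + 1) * (2 * h ^ 3)) + 1) ≤ n := h1.trans h5
    have h3 : (h + 2) + ((h + 1) * ((h + 1) * k) + 1) ≤ n := by
      rw [hk]
      exact_mod_cast h2
    omega
  obtain ⟨E, hE⟩ := exists_enc hcard
  -- the accepted values
  set A : Finset (Fin k) := Finset.univ.filter (fun a => a.val < h ^ 3) with hA
  have hAc : A.card = h ^ 3 := by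
    have e : A = (Finset.univ : Finset (Fin (h ^ 3))).map
        (Fin.castLEEmb (by rw [hk]; omega : h ^ 3 ≤ k)) := by
      ext a
      simp only [hA, Finset.mem_filter, Finset.mem_univ, true_and, Finset.mem_map]
      constructor
      · intro ha
        exact ⟨⟨a.val, ha⟩, Fin.ext rfl⟩
      · rintro ⟨b, hb⟩
        rw [← hb]
        exact b.isLt
    rw [e, Finset.card_map, Finset.card_univ, Fintype.card_fin]
  refine ⟨Fin (h + 1) × Fin (h + 1) → Fin k → Fin k → Fin k, inferInstance, ⟨fun _ _ _ => 0⟩,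
    fun g => tab E A (TH.inp g), ?_⟩
  intro Q _ P hG hQ Φ
  -- estimates
  have hlogk : 81 ≤ Real.log k := by
    have h1 : (10 : ℝ) ^ 36 ≤ k := by
      rw [hk]
      push_cast
      have := pow_le_pow_left₀ (by positivity) hhR 3
      have h2 : ((10 : ℝ) ^ 12) ^ 3 = 10 ^ 36 := by norm_num
      have h3 : (0 : ℝ) ≤ (h : ℝ) ^ 3 := by positivity
      linarith
    have h2 := Real.log_le_log (by positivity) h1
    rw [Real.log_pow] at h2
    have h3 : (2.25 : ℝ) ≤ Real.log 10 := by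
      have e : (10 : ℝ) = 2 ^ 3 * (5 / 4) := by norm_num
      rw [e, Real.log_mul (by norm_num) (by norm_num), Real.log_pow]
      have h4 := Real.log_two_gt_d9
      have h5 : (1 - (5 / 4 : ℝ)⁻¹) ≤ Real.log (5 / 4) := Real.one_sub_inv_le_log_of_pos (by norm_num)
      norm_num at h5 ⊢
      linarith
    push_cast at h2
    linarith
  have hn30 : (n : ℝ) ^ (1 / 30 : ℝ) ≤ 1.05 * (h : ℝ) ^ (1 / 6 : ℝ) := by
    have h1 : (n : ℝ) ^ (1 / 30 : ℝ) ≤ (4 * (h : ℝ) ^ 5) ^ (1 / 30 : ℝ) :=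
      Real.rpow_le_rpow hnpos.le h5' (by norm_num)
    rw [Real.mul_rpow (by norm_num) (by positivity)] at h1
    have h2 : ((h : ℝ) ^ 5) ^ (1 / 30 : ℝ) = (h : ℝ) ^ (1 / 6 : ℝ) := by
      rw [← Real.rpow_natCast, ← Real.rpow_mul hhpos.le]
      norm_num
    have h3 : (4 : ℝ) ^ (1 / 30 : ℝ) ≤ 1.05 := by
      have h4 : (4 : ℝ) ≤ 1.05 ^ (30 : ℕ) := by norm_num
      have h6 := Real.rpow_le_rpow (by norm_num) h4 (show (0 : ℝ) ≤ 1 / 30 by norm_num)
      rw [← Real.rpow_natCast, ← Real.rpow_mul (by norm_num)] at h6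
      norm_num at h6 ⊢
      exact h6
    rw [h2] at h1
    exact h1.trans (mul_le_mul_of_nonneg_right h3 (by positivity))
  have hQ' : (Fintype.card Q : ℝ) <
      (2 : ℝ) ^ ((1 / 40 : ℝ) * √((h : ℝ) ^ (1 / 3 : ℝ) * Real.log k)) := by
    refine lt_of_lt_of_le hQ (Real.rpow_le_rpow_of_exponent_le (by norm_num) ?_)
    have h1 : 9 * (h : ℝ) ^ (1 / 6 : ℝ) ≤ √((h : ℝ) ^ (1 / 3 : ℝ) * Real.log k) := by
      apply Real.le_sqrt_of_sq_le
      have e : (9 * (h : ℝ) ^ (1 / 6 : ℝ)) ^ 2 = 81 * (h : ℝ) ^ (1 / 3 : ℝ) := by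
        rw [mul_pow, ← Real.rpow_natCast ((h : ℝ) ^ (1 / 6 : ℝ)), ← Real.rpow_mul hhpos.le]
        norm_num
      rw [e, mul_comm]
      apply mul_le_mul_of_nonneg_left hlogk (by positivity)
    have h2 : (0 : ℝ) ≤ (h : ℝ) ^ (1 / 6 : ℝ) := by positivity
    linarith
  have hn15 : (n : ℝ) ^ (1 / 15 : ℝ) ≤ 2 * (h : ℝ) ^ (1 / 3 : ℝ) := by
    have e1 : (n : ℝ) ^ (1 / 15 : ℝ) = ((n : ℝ) ^ (1 / 30 : ℝ)) ^ 2 := by
      rw [← Real.rpow_natCast, ← Real.rpow_mul hnpos.le]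
      norm_num
    have e2 : (h : ℝ) ^ (1 / 3 : ℝ) = ((h : ℝ) ^ (1 / 6 : ℝ)) ^ 2 := by
      rw [← Real.rpow_natCast, ← Real.rpow_mul hhpos.le]
      norm_num
    rw [e1, e2]
    have h1 := pow_le_pow_left₀ (by positivity) hn30 2
    rw [mul_pow] at h1
    have h2 : (0 : ℝ) ≤ ((h : ℝ) ^ (1 / 6 : ℝ)) ^ 2 := by positivity
    nlinarith
  have hk0 : (0 : ℝ) < k := by exact_mod_cast hkpos
  have herr : (k : ℝ) ^ (-((h : ℝ) ^ (1 / 3 : ℝ) / 40)) ≤ Real.exp (-(n : ℝ) ^ (1 / 15 : ℝ)) := by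
    rw [Real.rpow_def_of_pos hk0]
    apply Real.exp_le_exp.mpr
    have h1 : (0 : ℝ) ≤ (h : ℝ) ^ (1 / 3 : ℝ) := by positivity
    have h2 : 81 * (h : ℝ) ^ (1 / 3 : ℝ) ≤ Real.log k * (h : ℝ) ^ (1 / 3 : ℝ) :=
      mul_le_mul_of_nonneg_right hlogk h1
    nlinarith
  have hmax : (((max A.card (k - A.card) : ℕ) : ℝ) / k) = 1 / 2 := by
    have e : max A.card (k - A.card) = h ^ 3 := by
      rw [hAc, hk]
      have : 2 * h ^ 3 - h ^ 3 = h ^ 3 := by omega
      rw [this, max_self]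
    rw [e, hk]
    push_cast
    have : (h : ℝ) ^ 3 ≠ 0 := by positivity
    field_simp
  -- the translation
  have key := th_main h hh12 k (by rw [hk]; omega) A Q (tprog E A P) (within_tr E A P)
    (thrifty_tr E A P hG) hQ'
    (fun S => Φ {L | Path P P.start L ∧ ∃ L' ∈ S, TrL E A L L'})
  rw [hmax] at key
  have e : Nat.card {t : Fin (h + 1) × Fin (h + 1) → Fin k → Fin k → Fin k //
      Φ (comps P (tab E A (TH.inp t))) ↔ Gen (tab E A (TH.inp t)) (Fin.last n)} =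
      Nat.card {g : Fin (h + 1) × Fin (h + 1) → Fin k → Fin k → Fin k //
        (Φ {L | Path P P.start L ∧ ∃ L' ∈ TH.comps (tprog E A P) (TH.inp g), TrL E A L L'}) ↔
          val (TH.inp g) h 0 ∈ A} := by
    congr 1
    congr 1
    funext g
    rw [← comps_tr, ← hE, gen_top]
  rw [e]
  refine key.trans ?_
  apply mul_le_mul_of_nonneg_right _ (by positivity)
  linarith

end Pool.Agent.J4H24.GN
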