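import Pool.Agent.J4H24.GN.Defs
import Pool.Agent.J4H24.TH.Defs

/-!
# The reduction from the evaluation of pyramids
-/

namespace Pool.Agent.J4H24.GN

open Pool.Agent.J4H24.TH (Var val)

/-- Incremental programs are generating. -/
theorem inc_gen {n : ℕ} [NeZero n] {Q : Type} (P : Prog n Q) (hI : Incremental P) :
    Generating P := by
  intro T L hL
  have key : ∀ m : ℕ, ∀ L₁ a b c q L₂, L₁.length < m → L = L₁ ++ (some (a, b, c), q) :: L₂ →
      Gen T a ∧ Gen T b := by
    intro m
    induction m with
    | zero => intro L₁ _ _ _ _ _ h; omega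
    | succ m ih =>
      intro L₁ a b c q L₂ hm e
      have hx : ∀ x : Fin n, (x = 0 ∨ ∃ u v q', (some (u, v, x), q') ∈ L₁) → Gen T x := by
        intro x hx
        rcases hx with hx | ⟨u, v, q', h⟩
        · rw [hx]; exact Gen.one
        · obtain ⟨A, B, hAB⟩ := List.append_of_mem h
          have hlen : A.length < m := by
            have := congrArg List.length hAB
            simp only [List.length_append, List.length_cons] at this
            omega
          have h2 := ih A u v x q' (B ++ (some (a, b, c), q) :: L₂) hlen (by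
            rw [e, hAB]; simp)
          have h3 : T u v = x := hL.2 u v x q' (by rw [e]; exact List.mem_append_left _ h)
          rw [← h3]
          exact Gen.mul h2.1 h2.2
      obtain ⟨h1, h2⟩ := hI T L hL L₁ a b c q L₂ e
      exact ⟨hx a h1, hx b h2⟩
  intro a b c q hm
  obtain ⟨A, B, hAB⟩ := List.append_of_mem hm
  exact key (A.length + 1) A a b c q B (by omega) hAB

/-- The elements. -/
inductive El (h k : ℕ) where
  | ch (i : Fin (h + 2)) : El h k
  | nd (i j : Fin (h + 1)) (a : Fin k) : El h k
  | top : El h k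
  deriving DecidableEq, Fintype

variable {h k : ℕ}

open Classical in
/-- The operation. -/
noncomputable def mu (A : Finset (Fin k)) (f : Var k → Fin k) : El h k → El h k → El h k
  | El.ch i, El.ch j =>
    if h1 : i = j ∧ i.val ≤ h then El.ch ⟨i.val + 1, by omega⟩
    else if h2 : j.val = i.val + 1 then El.nd 0 ⟨i.val, by omega⟩ (f (Var.leaf i.val))
    else El.ch 0
  | El.nd i j a, El.nd i' j' b =>
    if h1 : i' = i ∧ j'.val = j.val + 1 ∧ i.val + 1 + j.val ≤ h then
      El.nd ⟨i.val + 1, by omega⟩ j (f (Var.node i.val j.val a b))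
    else if i.val = h ∧ j.val = 0 ∧ a ∈ A then El.top
    else El.ch 0
  | _, _ => El.ch 0

/-- The generated elements. -/
def Tru (A : Finset (Fin k)) (f : Var k → Fin k) : El h k → Prop
  | El.ch _ => True
  | El.nd i j a => i.val + j.val ≤ h ∧ a = val f i.val j.val
  | El.top => val f h 0 ∈ A

lemma tru_mu (A : Finset (Fin k)) (f : Var k → Fin k) {u v : El h k} (hu : Tru A f u)
    (hv : Tru A f v) : Tru A f (mu A f u v) := by
  classical
  cases u with
  | top => exact trivial
  | ch i =>
    cases v with
    | top => exact trivial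
    | nd _ _ _ => exact trivial
    | ch j =>
      simp only [mu]
      split_ifs with h1 h2
      · exact trivial
      · refine ⟨?_, rfl⟩
        show 0 + i.val ≤ h
        have := j.isLt
        omega
      · exact trivial
  | nd i j a =>
    cases v with
    | top => exact trivial
    | ch _ => exact trivial
    | nd i' j' b =>
      simp only [mu]
      split_ifs with h1 h2
      · obtain ⟨e1, e2, e3⟩ := h1
        refine ⟨e3, ?_⟩
        subst e1
        have hb := hv.2
        rw [e2] at hb
        rw [hu.2, hb]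
        rfl
      · obtain ⟨e1, e2, e3⟩ := h2
        show val f h 0 ∈ A
        have := hu.2
        rw [e1, e2] at this
        rw [← this]; exact e3
      · exact trivial

/-- An encoding of the elements. -/
structure Enc (h k n : ℕ) [NeZero n] where
  enc : El h k → Fin n
  dec : Fin n → Option (El h k)
  l : ∀ u, dec (enc u) = some u
  r : ∀ x u, dec x = some u → enc u = x
  z : enc (El.ch 0) = 0

variable {n : ℕ} [NeZero n]

/-- The table. -/
noncomputable def tab (E : Enc h k n) (A : Finset (Fin k)) (f : Var k → Fin k) :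
    Fin n → Fin n → Fin n := fun x y =>
  match E.dec x, E.dec y with
  | some u, some v => E.enc (mu A f u v)
  | _, _ => 0

lemma tab_enc (E : Enc h k n) (A : Finset (Fin k)) (f : Var k → Fin k) (u v : El h k) :
    tab E A f (E.enc u) (E.enc v) = E.enc (mu A f u v) := by
  simp only [tab, E.l]

lemma enc_inj (E : Enc h k n) {u v : El h k} (e : E.enc u = E.enc v) : u = v := by
  have := E.l u
  rw [e, E.l v] at this
  exact (Option.some.inj this).symm

lemma gen_tru (E : Enc h k n) (A : Finset (Fin k)) (f : Var k → Fin k) {x : Fin n}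
    (hx : Gen (tab E A f) x) : ∃ u, E.enc u = x ∧ Tru A f u := by
  induction hx with
  | one => exact ⟨El.ch 0, E.z, trivial⟩
  | mul _ _ ih1 ih2 =>
    obtain ⟨u, e1, t1⟩ := ih1
    obtain ⟨v, e2, t2⟩ := ih2
    refine ⟨mu A f u v, ?_, tru_mu A f t1 t2⟩
    rw [← e1, ← e2, tab_enc]

lemma gen_ch (E : Enc h k n) (A : Finset (Fin k)) (f : Var k → Fin k) :
    ∀ (i : ℕ) (hi : i < h + 2), Gen (tab E A f) (E.enc (El.ch ⟨i, hi⟩))
  | 0, hi => by
      have : E.enc (El.ch (⟨0, hi⟩ : Fin (h + 2))) = 0 := E.z
      rw [this]; exact Gen.one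
  | i + 1, hi => by
      have h1 := gen_ch E A f i (by omega)
      have h2 := Gen.mul h1 h1
      rw [tab_enc] at h2
      have h3 : mu A f (El.ch (⟨i, by omega⟩ : Fin (h + 2))) (El.ch ⟨i, by omega⟩) =
          El.ch ⟨i + 1, hi⟩ := by
        simp only [mu]
        rw [dif_pos ⟨trivial, by omega⟩]
      rw [h3] at h2
      exact h2

lemma gen_nd (E : Enc h k n) (A : Finset (Fin k)) (f : Var k → Fin k) :
    ∀ (i j : ℕ) (hi : i < h + 1) (hj : j < h + 1), i + j ≤ h →
      Gen (tab E A f) (E.enc (El.nd ⟨i, hi⟩ ⟨j, hj⟩ (val f i j)))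
  | 0, j, hi, hj, hij => by
      have h2 := Gen.mul (gen_ch E A f j (by omega)) (gen_ch E A f (j + 1) (by omega))
      rw [tab_enc] at h2
      have h3 : mu A f (El.ch (⟨j, by omega⟩ : Fin (h + 2))) (El.ch ⟨j + 1, by omega⟩) =
          El.nd ⟨0, hi⟩ ⟨j, hj⟩ (val f 0 j) := by
        simp only [mu]
        rw [dif_neg (by rintro ⟨h1, _⟩; have := congrArg Fin.val h1; simp at this),
          dif_pos trivial]
        rfl
      rw [h3] at h2
      exact h2
  | i + 1, j, hi, hj, hij => by
      have h2 := Gen.mul (gen_nd E A f i j (by omega) hj (by omega))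
        (gen_nd E A f i (j + 1) (by omega) (by omega) (by omega))
      rw [tab_enc] at h2
      have h3 : mu A f (El.nd (⟨i, by omega⟩ : Fin (h + 1)) ⟨j, hj⟩ (val f i j))
          (El.nd ⟨i, by omega⟩ ⟨j + 1, by omega⟩ (val f i (j + 1))) =
          El.nd ⟨i + 1, hi⟩ ⟨j, hj⟩ (val f (i + 1) j) := by
        simp only [mu]
        rw [dif_pos ⟨trivial, trivial, by omega⟩]
        rfl
      rw [h3] at h2
      exact h2

/-- The instance of GEN has the answer of the evaluation of the pyramid. -/
theorem gen_top (E : Enc h k n) (A : Finset (Fin k)) (f : Var k → Fin k) :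
    Gen (tab E A f) (E.enc El.top) ↔ val f h 0 ∈ A := by
  constructor
  · intro hg
    obtain ⟨u, e, t⟩ := gen_tru E A f hg
    have := enc_inj E e
    subst this
    exact t
  · intro hA
    have h1 := gen_nd E A f h 0 (by omega) (by omega) (by omega)
    have h2 := Gen.mul h1 h1
    rw [tab_enc] at h2
    have h3 : mu A f (El.nd (⟨h, by omega⟩ : Fin (h + 1)) ⟨0, by omega⟩ (val f h 0))
        (El.nd ⟨h, by omega⟩ ⟨0, by omega⟩ (val f h 0)) = El.top := by
      simp only [mu]
      rw [dif_neg (by rintro ⟨_, h1, _⟩; omega), if_pos ⟨trivial, trivial, hA⟩]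
    rw [h3] at h2
    exact h2

end Pool.Agent.J4H24.GN
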