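import Pool.Agent.J4H24.GN.Red

/-!
# The translation of programs
-/

namespace Pool.Agent.J4H24.GN

open Pool.Agent.J4H24.TH (Var val)

variable {h k n : ℕ} [NeZero n]

/-- The translation of labels. -/
def Tr (E : Enc h k n) (A : Finset (Fin k)) :
    Option (Fin n × Fin n × Fin n) → Option (Var k × Fin k) → Prop
  | none, none => True
  | none, some _ => False
  | some (x, y, c), none => ∀ f, tab E A f x y = c
  | some (x, y, c), some (Var.leaf i, a) => i ≤ h ∧ ∀ f, (tab E A f x y = c ↔ f (Var.leaf i) = a)
  | some (x, y, c), some (Var.node i j a b, c') => i + 1 + j ≤ h ∧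
      (∃ (h1 : i < h + 1) (h2 : j < h + 1) (h3 : j + 1 < h + 1),
        x = E.enc (El.nd ⟨i, h1⟩ ⟨j, h2⟩ a) ∧ y = E.enc (El.nd ⟨i, h1⟩ ⟨j + 1, h3⟩ b)) ∧
      ∀ f, (tab E A f x y = c ↔ f (Var.node i j a b) = c')

lemma tr_ex (E : Enc h k n) (A : Finset (Fin k)) (f : Var k → Fin k) (x y c : Fin n)
    (hc : tab E A f x y = c) : ∃ e', Tr E A (some (x, y, c)) e' ∧ ∀ X a, e' = some (X, a) → f X = a := by
  classical
  have hnone : (∀ f', tab E A f' x y = c) → ∃ e', Tr E A (some (x, y, c)) e' ∧
      ∀ X a, e' = some (X, a) → f X = a := fun H => ⟨none, H, fun _ _ e => by simp at e⟩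
  rcases hx : E.dec x with _ | u
  · apply hnone
    intro f'
    rw [← hc]
    simp only [tab, hx]
  rcases hy : E.dec y with _ | v
  · apply hnone
    intro f'
    rw [← hc]
    simp only [tab, hx, hy]
  have htab : ∀ f', tab E A f' x y = E.enc (mu A f' u v) := by
    intro f'
    simp only [tab, hx, hy]
  have hconst : (∀ f', mu A f' u v = mu A f u v) → ∃ e', Tr E A (some (x, y, c)) e' ∧
      ∀ X a, e' = some (X, a) → f X = a := by
    intro H
    apply hnone
    intro f'
    rw [← hc, htab, htab, H]
  have ex := E.r x u hx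
  have ey := E.r y v hy
  cases u with
  | top => exact hconst fun f' => rfl
  | ch i =>
    cases v with
    | top => exact hconst fun f' => rfl
    | nd _ _ _ => exact hconst fun f' => rfl
    | ch j =>
      by_cases h1 : i = j ∧ i.val ≤ h
      · apply hconst
        intro f'
        simp only [mu]
        rw [dif_pos h1, dif_pos h1]
      · by_cases h2 : j.val = i.val + 1
        · have hlt : i.val < h + 1 := by have := j.isLt; omega
          have hm : ∀ f', mu A f' (El.ch i) (El.ch j) =
              El.nd 0 ⟨i.val, hlt⟩ (f' (Var.leaf i.val)) := by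
            intro f'
            simp only [mu]
            rw [dif_neg h1, dif_pos h2]
          refine ⟨some (Var.leaf i.val, f (Var.leaf i.val)), ⟨by omega, ?_⟩, ?_⟩
          · intro f'
            rw [← hc, htab, htab, hm, hm]
            constructor
            · intro e
              have := enc_inj E e
              injection this
            · intro e
              rw [e]
          · intro X a e
            obtain ⟨e1, e2⟩ := Prod.mk.inj (Option.some.inj e)
            rw [← e1, ← e2]
        · apply hconst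
          intro f'
          simp only [mu]
          rw [dif_neg h1, dif_neg h1, dif_neg h2, dif_neg h2]
  | nd i j a =>
    cases v with
    | top => exact hconst fun f' => rfl
    | ch _ => exact hconst fun f' => rfl
    | nd i' j' b =>
      by_cases h1 : i' = i ∧ j'.val = j.val + 1 ∧ i.val + 1 + j.val ≤ h
      · have hlt : i.val + 1 < h + 1 := by omega
        have hm : ∀ f', mu A f' (El.nd i j a) (El.nd i' j' b) =
            El.nd ⟨i.val + 1, hlt⟩ j (f' (Var.node i.val j.val a b)) := by
          intro f'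
          simp only [mu]
          rw [dif_pos h1]
        refine ⟨some (Var.node i.val j.val a b, f (Var.node i.val j.val a b)),
          ⟨h1.2.2, ⟨i.isLt, j.isLt, by have := j'.isLt; omega, ?_, ?_⟩, ?_⟩, ?_⟩
        · exact ex.symm
        · rw [← ey]
          congr 2
          · exact h1.1
          · exact Fin.ext h1.2.1
        · intro f'
          rw [← hc, htab, htab, hm, hm]
          constructor
          · intro e
            have := enc_inj E e
            injection this
          · intro e
            rw [e]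
        · intro X a' e
          obtain ⟨e1, e2⟩ := Prod.mk.inj (Option.some.inj e)
          rw [← e1, ← e2]
      · apply hconst
        intro f'
        simp only [mu]
        rw [dif_neg h1, dif_neg h1]

variable {Q : Type}

/-- The translation of programs. -/
def tprog (E : Enc h k n) (A : Finset (Fin k)) (P : Prog n Q) : TH.Prog k Q where
  start := P.start
  fin := P.fin
  edge := fun q e' q' => ∃ l, P.edge q l q' ∧ Tr E A l e'

/-- The translation of paths. -/
def TrL (E : Enc h k n) (A : Finset (Fin k)) :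
    List (Option (Fin n × Fin n × Fin n) × Q) → List (Option (Var k × Fin k) × Q) → Prop :=
  List.Forall₂ fun s s' => Tr E A s.1 s'.1 ∧ s.2 = s'.2

lemma path_fwd (E : Enc h k n) (A : Finset (Fin k)) (f : Var k → Fin k) (P : Prog n Q) :
    ∀ (L : List (Option (Fin n × Fin n × Fin n) × Q)) (q : Q), Path P q L →
      (∀ a b c q', (some (a, b, c), q') ∈ L → tab E A f a b = c) →
      ∃ L', TH.Path (tprog E A P) q L' ∧ (∀ x c q', (some (x, c), q') ∈ L' → f x = c) ∧ TrL E A L L'
  | [], q, hp, _ => ⟨[], hp, fun _ _ _ h => by simp at h, List.Forall₂.nil⟩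
  | (l, q₁) :: L, q, hp, ht => by
      obtain ⟨L', h1, h2, h3⟩ := path_fwd E A f P L q₁ hp.2
        (fun a b c q' hm => ht a b c q' (List.mem_cons_of_mem _ hm))
      have : ∃ e', Tr E A l e' ∧ ∀ X a, e' = some (X, a) → f X = a := by
        rcases l with _ | ⟨x, y, c⟩
        · exact ⟨none, trivial, fun _ _ e => by simp at e⟩
        · exact tr_ex E A f x y c (ht x y c q₁ List.mem_cons_self)
      obtain ⟨e', he, hf⟩ := this
      refine ⟨(e', q₁) :: L', ⟨⟨l, hp.1, he⟩, h1⟩, ?_, List.Forall₂.cons ⟨he, rfl⟩ h3⟩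
      intro x c q' hm
      rcases List.mem_cons.mp hm with hm | hm
      · exact hf x c (Prod.ext_iff.mp hm).1.symm
      · exact h2 x c q' hm

lemma path_bwd (E : Enc h k n) (A : Finset (Fin k)) (P : Prog n Q) :
    ∀ (L' : List (Option (Var k × Fin k) × Q)) (q : Q), TH.Path (tprog E A P) q L' →
      ∃ L, Path P q L ∧ TrL E A L L'
  | [], q, hp => ⟨[], hp, List.Forall₂.nil⟩
  | (e', q₁) :: L', q, hp => by
      obtain ⟨L, h1, h2⟩ := path_bwd E A P L' q₁ hp.2
      obtain ⟨l, hl, ht⟩ := hp.1
      exact ⟨(l, q₁) :: L, ⟨hl, h1⟩, List.Forall₂.cons ⟨ht, rfl⟩ h2⟩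

lemma tests_bwd (E : Enc h k n) (A : Finset (Fin k)) (f : Var k → Fin k)
    {L : List (Option (Fin n × Fin n × Fin n) × Q)} {L' : List (Option (Var k × Fin k) × Q)}
    (hT : TrL E A L L') (hf : ∀ x c q', (some (x, c), q') ∈ L' → f x = c) :
    ∀ a b c q', (some (a, b, c), q') ∈ L → tab E A f a b = c := by
  induction hT with
  | nil => intro a b c q' h; simp at h
  | @cons s s' L L' h1 h2 ih =>
    intro a b c q' hm
    rcases List.mem_cons.mp hm with hm | hm
    · have ht := h1.1
      rw [← hm] at ht
      rcases hs : s' with ⟨e', q₁⟩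
      rw [hs] at ht hf
      rcases e' with _ | ⟨X, c'⟩
      · exact ht f
      · have h3 := hf X c' q₁ List.mem_cons_self
        cases X with
        | leaf i => exact (ht.2 f).2 h3
        | node i j a' b' => exact (ht.2.2 f).2 h3
    · exact ih (fun x c q' hm' => hf x c q' (List.mem_cons_of_mem _ hm')) a b c q' hm

/-- The complete computations of `P` in terms of those of the translated program. -/
theorem comps_tr (E : Enc h k n) (A : Finset (Fin k)) (f : Var k → Fin k) (P : Prog n Q) :
    comps P (tab E A f) = {L | Path P P.start L ∧ ∃ L' ∈ TH.comps (tprog E A P) f, TrL E A L L'} := by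
  ext L
  constructor
  · rintro ⟨h1, h2⟩
    obtain ⟨L', h3, h4, h5⟩ := path_fwd E A f P L _ h1 h2
    exact ⟨h1, L', ⟨h3, h4⟩, h5⟩
  · rintro ⟨h1, L', ⟨h3, h4⟩, h5⟩
    exact ⟨h1, tests_bwd E A f h5 h4⟩

lemma trl_mem (E : Enc h k n) (A : Finset (Fin k))
    {L : List (Option (Fin n × Fin n × Fin n) × Q)} {L' : List (Option (Var k × Fin k) × Q)}
    (hT : TrL E A L L') {e' : Option (Var k × Fin k)} {q : Q} (hm : (e', q) ∈ L') :
    ∃ l, (l, q) ∈ L ∧ Tr E A l e' := by
  induction hT with
  | nil => simp at hm
  | @cons s s' L L' h1 h2 ih =>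
    rcases List.mem_cons.mp hm with hm | hm
    · refine ⟨s.1, ?_, ?_⟩
      · have : q = s.2 := by rw [h1.2, ← hm]
        rw [this]
        exact List.mem_cons_self
      · have := h1.1
        rw [← hm] at this
        exact this
    · obtain ⟨l, h3, h4⟩ := ih hm
      exact ⟨l, List.mem_cons_of_mem _ h3, h4⟩

theorem thrifty_tr (E : Enc h k n) (A : Finset (Fin k)) (P : Prog n Q) (hG : Generating P) :
    TH.Thrifty (tprog E A P) := by
  intro f L' hL' i j a b c q hm
  obtain ⟨L, h1, h2⟩ := path_bwd E A P L' _ hL'.1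
  have hL : L ∈ comps P (tab E A f) := ⟨h1, tests_bwd E A f h2 hL'.2⟩
  obtain ⟨l, h3, h4⟩ := trl_mem E A h2 hm
  rcases l with _ | ⟨x, y, c₀⟩
  · exact h4.elim
  · obtain ⟨g1, g2⟩ := hG _ L hL x y c₀ q h3
    obtain ⟨_, ⟨_, _, _, e1, e2⟩, _⟩ := h4
    obtain ⟨u, e3, t3⟩ := gen_tru E A f g1
    obtain ⟨v, e4, t4⟩ := gen_tru E A f g2
    have e5 := enc_inj E (e3.trans e1)
    have e6 := enc_inj E (e4.trans e2)
    subst e5 e6
    exact ⟨t3.2, t4.2⟩

theorem within_tr (E : Enc h k n) (A : Finset (Fin k)) (P : Prog n Q) :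
    TH.Within h (tprog E A P) := by
  intro q x c q' he
  obtain ⟨l, _, ht⟩ := he
  rcases l with _ | ⟨x', y, c₀⟩
  · exact ht.elim
  · cases x with
    | leaf i =>
      show 0 + i ≤ h
      have := ht.1
      omega
    | node i j a b => exact ht.1

end Pool.Agent.J4H24.GN
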